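import Mathlib
import Pool.Agent.Lib.MP_98d06d_al.DvMain

/-!
Every partially ordered group whose order is an intersection of right orders has an
order-embedding into a divisible lattice-ordered group that preserves all existing suprema and
infima.
-/

set_option autoImplicit false

namespace Pool.Agent.Results.MP_98d06d_al.Divisible

open Pool.Agent.Lib.MP_98d06d_al

universe u v

/-- Let `G` be a partially ordered group whose order is the intersection of a family of right
orders `r i`.  Then there are a divisible l-group `H` and an order-embedding `φ : G → H`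
preserving every supremum and every infimum that exists in `G`. -/
theorem result (G : Type u) [Group G] [PartialOrder G]
    (hl : ∀ a b c : G, a ≤ b → c * a ≤ c * b) (hr : ∀ a b c : G, a ≤ b → a * c ≤ b * c)
    (ι : Type v) (r : ι → G → G → Prop) (hlin : ∀ i, IsLinearOrder G (r i))
    (hright : ∀ (i : ι) (a b c : G), r i a b → r i (a * c) (b * c))
    (hint : ∀ a b : G, a ≤ b ↔ ∀ i, r i a b) :
    ∃ (H : Type u) (_ : Group H) (_ : Lattice H),
      (∀ a b c : H, a ≤ b → c * a ≤ c * b) ∧ (∀ a b c : H, a ≤ b → a * c ≤ b * c) ∧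
      (∀ (h : H) (n : ℕ), 0 < n → ∃ x : H, x ^ n = h) ∧
      ∃ φ : G →* H, Function.Injective φ ∧ (∀ a b : G, a ≤ b ↔ φ a ≤ φ b) ∧
        (∀ (S : Set G) (s : G), IsLUB S s → IsLUB (φ '' S) (φ s)) ∧
        (∀ (S : Set G) (s : G), IsGLB S s → IsGLB (φ '' S) (φ s)) := by
  have : MulLeftMono G := ⟨fun c a b h => hl a b c h⟩
  have : MulRightMono G := ⟨fun c a b h => hr a b c h⟩
  obtain ⟨K, _, _, _, _, ψ, hψ⟩ := exists_embedding G ι r hlin hright hint
  have : MulLeftMono (cone ψ hψ).Q := ⟨fun c a b h => (cone ψ hψ).mul_le_left a b c h⟩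
  have : MulRightMono (cone ψ hψ).Q := ⟨fun c a b h => (cone ψ hψ).mul_le_right a b c h⟩
  let C := negC (cone ψ hψ).Q
  have : MulLeftMono C.Q := ⟨fun c a b h => C.mul_le_left a b c h⟩
  have : MulRightMono C.Q := ⟨fun c a b h => C.mul_le_right a b c h⟩
  let φ : G →* C.Q := dv.comp (emb ψ hψ)
  have hle : ∀ a b, a ≤ b ↔ φ a ≤ φ b := fun a b => (emb_le ψ hψ a b).trans (dv_le _ _)
  have hglb : ∀ (S : Set G) (s : G), IsGLB S s → IsGLB (φ '' S) (φ s) := fun S s h => by
    have := dv_isGLB _ _ (emb_isGLB ψ hψ S s h)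
    rwa [← Set.image_comp] at this
  refine ⟨C.Q, inferInstance, inferInstance, C.mul_le_left, C.mul_le_right,
    fun h n hn => cl_root h hn, φ, fun a b h => le_antisymm ((hle _ _).2 h.le) ((hle _ _).2 h.ge),
    hle, fun S s hS => ⟨?_, fun q hq => ?_⟩, hglb⟩
  · rintro _ ⟨t, ht, rfl⟩
    exact (hle _ _).1 (hS.1 ht)
  · have h1 : IsGLB {x : G | x⁻¹ ∈ S} s⁻¹ := ⟨fun x hx => inv_le'.1 (hS.1 hx), fun y hy =>
      le_inv'.1 (hS.2 fun t ht => le_inv'.1 (hy (a := t⁻¹) (by simpa using ht)))⟩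
    have : q⁻¹ ≤ φ s⁻¹ := (hglb _ _ h1).2 (by
      rintro _ ⟨t, ht, rfl⟩
      have := hq ⟨t⁻¹, ht, rfl⟩
      rw [map_inv] at this
      exact inv_le'.1 this)
    rw [map_inv] at this
    exact inv_le_inv_iff.1 this

end Pool.Agent.Results.MP_98d06d_al.Divisible
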