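import Pool.Agent.Lib.MP_98d06d_al.Quot

/-!
Every order-embedding of a partially ordered group into an l-group generated by the image can be
corrected, by passing to a quotient l-group, to one that preserves all existing suprema and infima;
the quotient is universal.
-/

set_option autoImplicit false

namespace Pool.Agent.Results.MP_98d06d_al.VarietyReflection

open Pool.Agent.Lib.MP_98d06d_al

universe u v

theorem result (G K : Type u) [Group G] [PartialOrder G] [Group K] [Lattice K]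
    (hl : ∀ a b c : K, a ≤ b → c * a ≤ c * b) (hr : ∀ a b c : K, a ≤ b → a * c ≤ b * c)
    (ψ : G →* K) (hψ : ∀ a b : G, a ≤ b ↔ ψ a ≤ ψ b)
    (hgen : ∀ F : Subgroup K, (∀ x ∈ F, ∀ y ∈ F, x ⊔ y ∈ F) → (∀ g : G, ψ g ∈ F) → F = ⊤) :
    ∃ (H : Type u) (_ : Group H) (_ : Lattice H),
      (∀ a b c : H, a ≤ b → c * a ≤ c * b) ∧ (∀ a b c : H, a ≤ b → a * c ≤ b * c) ∧
      ∃ π : K →* H, Function.Surjective π ∧
        (∀ x y : K, π (x ⊔ y) = π x ⊔ π y) ∧ (∀ x y : K, π (x ⊓ y) = π x ⊓ π y) ∧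
        (∀ a b : G, a ≤ b ↔ π (ψ a) ≤ π (ψ b)) ∧
        (∀ (S : Set G) (s : G), IsLUB S s → IsLUB ((fun g => π (ψ g)) '' S) (π (ψ s))) ∧
        (∀ (S : Set G) (s : G), IsGLB S s → IsGLB ((fun g => π (ψ g)) '' S) (π (ψ s))) ∧
        ∀ (L : Type v) [Group L] [PartialOrder L], (∀ a b c : L, a ≤ b → a * c ≤ b * c) →
          ∀ θ : K →* L, Monotone θ →
            (∀ (S : Set G) (s : G), IsGLB S s → IsGLB ((fun g => θ (ψ g)) '' S) (θ (ψ s))) →
            ∃ χ : H →* L, Monotone χ ∧ ∀ x : K, χ (π x) = θ x := by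
  have : MulLeftMono K := ⟨fun c a b h => hl a b c h⟩
  have : MulRightMono K := ⟨fun c a b h => hr a b c h⟩
  have : MulLeftMono G := ⟨fun c a b h => (hψ _ _).2 (by
    rw [map_mul, map_mul]; exact hl _ _ _ ((hψ _ _).1 h))⟩
  have : MulRightMono G := ⟨fun c a b h => (hψ _ _).2 (by
    show ψ (a * c) ≤ ψ (b * c)
    rw [map_mul, map_mul]; exact hr _ _ _ ((hψ _ _).1 h))⟩
  let C := cone ψ hψ
  have : MulLeftMono C.Q := ⟨fun c a b h => C.mul_le_left a b c h⟩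
  have : MulRightMono C.Q := ⟨fun c a b h => C.mul_le_right a b c h⟩
  have hN : ∀ x : K, x ∈ C.N := fun x => by
    rw [hgen C.N (fun x hx y hy => C.sup_mem_N hx hy) (map_mem_N ψ hψ)]
    trivial
  let π : K →* C.Q := C.pr.comp ((MonoidHom.id K).codRestrict _ hN)
  have hπ : ∀ x y, π x ≤ π y ↔ x * y⁻¹ ∈ C.J := fun x y => C.mk_le_mk ⟨x, hN x⟩ ⟨y, hN y⟩
  have hm : ∀ {x y}, x ≤ y → π x ≤ π y := fun {x y} h =>
    C.mk_mono (x := ⟨x, hN x⟩) (y := ⟨y, hN y⟩) h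
  have hs : Function.Surjective π := fun q => by
    obtain ⟨x, rfl⟩ := C.mk_surj q
    exact ⟨x, rfl⟩
  have hle : ∀ a b : G, a ≤ b ↔ π (ψ a) ≤ π (ψ b) := emb_le ψ hψ
  have hglb : ∀ (S : Set G) (s : G), IsGLB S s → IsGLB ((fun g => π (ψ g)) '' S) (π (ψ s)) :=
    emb_isGLB ψ hψ
  refine ⟨C.Q, inferInstance, inferInstance, C.mul_le_left, C.mul_le_right, π, hs,
    fun x y => le_antisymm ?_ (sup_le (hm le_sup_left) (hm le_sup_right)),
    fun x y => le_antisymm (le_inf (hm inf_le_left) (hm inf_le_right)) ?_, hle,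
    fun S s hS => ⟨?_, fun q hq => ?_⟩, hglb, fun L _ _ hL θ hθ hg => ?_⟩
  · obtain ⟨z, hz⟩ := hs (π x ⊔ π y)
    have h1 : π x ≤ π z := hz ▸ le_sup_left
    have h2 : π y ≤ π z := hz ▸ le_sup_right
    rw [← hz, hπ, sup_mul]
    exact C.sup_mem _ _ ((hπ _ _).1 h1) ((hπ _ _).1 h2)
  · obtain ⟨z, hz⟩ := hs (π x ⊓ π y)
    have h1 : π z ≤ π x := hz ▸ inf_le_left
    have h2 : π z ≤ π y := hz ▸ inf_le_right
    rw [← hz, hπ, inv_inf, mul_sup]
    exact C.sup_mem _ _ ((hπ _ _).1 h1) ((hπ _ _).1 h2)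
  · rintro _ ⟨t, ht, rfl⟩
    exact (hle _ _).1 (hS.1 ht)
  · have h1 : IsGLB {x : G | x⁻¹ ∈ S} s⁻¹ := ⟨fun x hx => inv_le'.1 (hS.1 hx), fun y hy =>
      le_inv'.1 (hS.2 fun t ht => le_inv'.1 (hy (a := t⁻¹) (by simpa using ht)))⟩
    have : q⁻¹ ≤ π (ψ s⁻¹) := (hglb _ _ h1).2 (by
      rintro _ ⟨t, ht, rfl⟩
      have : π (ψ t⁻¹) ≤ q := hq ⟨t⁻¹, ht, rfl⟩
      rw [map_inv, map_inv] at this
      exact inv_le'.1 this)
    rw [map_inv, map_inv] at this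
    exact inv_le_inv_iff.1 this
  · have key : ∀ x y, π x ≤ π y → θ x ≤ θ y := fun x y h => by
      obtain ⟨A, hA, k⟩ := (hπ x y).1 h
      have h1 : θ (x * y⁻¹) ≤ θ (ψ 1) := (hg A 1 hA).2 (by
        rintro _ ⟨a, ha, rfl⟩
        exact hθ (k a ha))
      have h2 := hL _ _ (θ y) h1
      simpa using h2
    have hk : π.ker ≤ θ.ker := fun x hx => by
      have h1 : π x = π 1 := by rw [map_one]; exact hx
      have h2 := le_antisymm (key _ _ h1.le) (key _ _ h1.ge)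
      rwa [map_one] at h2
    refine ⟨π.liftOfSurjective hs ⟨θ, hk⟩, fun p q h => ?_, fun x => ?_⟩
    · obtain ⟨x, rfl⟩ := hs p
      obtain ⟨y, rfl⟩ := hs q
      simpa using key x y h
    · simp

end Pool.Agent.Results.MP_98d06d_al.VarietyReflection
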